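import Mathlib

/-! Chebyshev bounds in the form of a comparison of `π (a * y)` with `a * π y`. -/

open Filter

namespace Pool.Agent.FS.BoundedRatio

theorem cheb_two : ∀ᶠ y : ℕ in atTop, 0 < Real.log y ∧
    (y : ℝ) ≤ 2 * Real.log y * Nat.primeCounting y ∧
      Real.log y * Nat.primeCounting y ≤ 2 * y := by
  have h1 := (tendsto_natCast_atTop_atTop (R := ℝ)).eventually
    (Chebyshev.eventually_primeCounting_le (ε := 1 / 2) (by norm_num))
  have h2 := (tendsto_natCast_atTop_atTop (R := ℝ)).eventually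
    (Real.isLittleO_log_id_atTop.bound (c := 1 / 20) (by norm_num))
  filter_upwards [h1, h2, eventually_ge_atTop 20] with y h1 h2 h3
  have y1 : (20 : ℝ) ≤ y := by exact_mod_cast h3
  have l0 : 0 < Real.log y := Real.log_pos (by linarith)
  have l2 := Real.log_two_gt_d9
  have l2' := Real.log_two_lt_d9
  have l4 : Real.log 4 = 2 * Real.log 2 := by
    rw [show (4 : ℝ) = 2 ^ 2 by norm_num, Real.log_pow]; norm_num
  rw [Nat.floor_natCast, le_div_iff₀ l0] at h1
  rw [Real.norm_of_nonneg l0.le, id, Real.norm_of_nonneg (by linarith)] at h2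
  have h4 := Chebyshev.pi_ge y
  rw [div_le_iff₀ l0] at h4
  have h5 : Real.log (y + 1) ≤ Real.log 2 + Real.log y := by
    rw [← Real.log_mul (by norm_num) (by linarith)]
    exact Real.log_le_log (by linarith) (by linarith)
  refine ⟨l0, by nlinarith, by nlinarith⟩

theorem cheb : ∃ B : ℕ, ∀ y ≥ B, ∀ a, 1 ≤ a →
    Nat.primeCounting (a * y) ≤ 4 * a * Nat.primeCounting y ∧
      (a ≤ y → a * Nat.primeCounting y ≤ 8 * Nat.primeCounting (a * y)) := by
  obtain ⟨B, hB⟩ := eventually_atTop.1 cheb_two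
  refine ⟨B + 1, fun y hy a ha => ?_⟩
  have hay : y ≤ a * y := Nat.le_mul_of_pos_left _ ha
  obtain ⟨l0, h1, h2⟩ := hB y (by omega)
  obtain ⟨l1, h3, h4⟩ := hB (a * y) (by omega)
  have y0 : (0 : ℝ) < y := by exact_mod_cast (by omega : 0 < y)
  have a1 : (1 : ℝ) ≤ a := by exact_mod_cast ha
  have h5 : Real.log y ≤ Real.log (a * y : ℕ) := Real.log_le_log y0 (by exact_mod_cast hay)
  have p0 : (0 : ℝ) ≤ Nat.primeCounting (a * y) := Nat.cast_nonneg _
  have p1 : (0 : ℝ) ≤ Nat.primeCounting y := Nat.cast_nonneg _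
  refine ⟨Nat.cast_le (α := ℝ).1 (le_of_mul_le_mul_left ?_ l0), fun h => Nat.cast_le (α := ℝ).1
    (le_of_mul_le_mul_left ?_ l0)⟩
  · have h6 := (mul_le_mul_of_nonneg_right h5 p0).trans h4
    have h7 := mul_le_mul_of_nonneg_left h1 (show (0 : ℝ) ≤ a by linarith)
    push_cast at h6 ⊢
    nlinarith
  · have h6 : Real.log (a * y : ℕ) ≤ 2 * Real.log y := by
      have h7 : (a : ℝ) ≤ y := by exact_mod_cast h
      push_cast
      rw [Real.log_mul (by linarith) y0.ne']
      linarith [Real.log_le_log (by linarith) h7]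
    have h7 := mul_le_mul_of_nonneg_right h6 p0
    have h8 := mul_le_mul_of_nonneg_left h2 (show (0 : ℝ) ≤ a by linarith)
    generalize Real.log (a * y : ℕ) = l at *
    push_cast at h3 ⊢
    nlinarith

theorem lt_pi {i y : ℕ} (h : Nat.nth Nat.Prime i ≤ y) : i < Nat.primeCounting y :=
  (Nat.lt_nth_iff_count_lt Nat.infinite_setOfPred_prime).2 (Nat.lt_succ_of_le h)

theorem pi_le {i y : ℕ} (h : y ≤ Nat.nth Nat.Prime i) : Nat.primeCounting y ≤ i + 1 := by
  refine (Nat.monotone_primeCounting h).trans_eq ?_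
  exact Nat.count_nth_succ_of_infinite Nat.infinite_setOfPred_prime i

theorem exists_scale (t : ℕ) (ht : 0 < t) : ∃ s, 0 < s ∧ t ≤ s ^ 40 ∧ s ^ 40 ≤ 2 ^ 40 * t := by
  induction t, ht using Nat.le_induction with
  | base => exact ⟨1, one_pos, by norm_num, by norm_num⟩
  | succ t ht ih =>
    obtain ⟨s, h1, h2, h3⟩ := ih
    rcases h2.lt_or_eq with h | h
    · exact ⟨s, h1, h, by omega⟩
    · refine ⟨2 * s, by omega, ?_, ?_⟩ <;> rw [mul_pow, ← h] <;> omega

end Pool.Agent.FS.BoundedRatio
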