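import Pool.Agent.FS.EveryC.Two

/-! Three far apart ranges of consecutive primes with gaps `y_j`, `y'_j` and `y_j + y'_j`. -/

open Finset Filter Pool.Agent.Lib.MP_bee098_nt Pool.Agent.FS.EveryC

namespace Pool.Agent.FS.BoundedRatio

theorem one_colouring {U : Ultrafilter (ℕ → ℕ)}
    (h1 : ∀ p : (ℕ → ℕ) → Prop, (∀ᶠ a in (U : Filter _), p a) →
      ∀ᶠ a in (U : Filter _), ∀ᶠ b in (U : Filter _), p (a + b))
    (h2 : ∀ n, ∀ᶠ a in (U : Filter _), Nice a ∧ ∀ i < n, a i = 0) (L k : ℕ)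
    (Q : ℕ → List (ℕ → ℕ) → Prop)
    (h : ∀ N (z : List (ℕ → ℕ)), z.length = k → z.Pairwise Sep →
      (∀ a ∈ z, Ok N a) → ∃ y ∈ blk z, y.length = L ∧ Q N y) :
    Tr U L fun y => ∀ᶠ N in (hyperfilter ℕ : Filter ℕ), Q N y := by
  by_contra h3
  obtain ⟨z, z1, z2, z3, z4⟩ := taylor h1 h2 L k 0
    (fun y => y.length = L → ¬ ∀ᶠ N in (hyperfilter ℕ : Filter ℕ), Q N y) fun r hr => by
      rcases hr.lt_or_eq with h | h
      · exact Tr_all fun l hl h5 => absurd h5 (by omega)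
      · subst h
        exact Tr_two (fun l _ h _ _ => h) (Tr_not h3) (Tr_not h3)
  have h4 : ∀ᶠ N in atTop, ∀ a ∈ {a | a ∈ z}, ∀ i ≥ N, a i = 0 :=
    (eventually_all_finite z.finite_toSet).2 fun a ha => by
      obtain ⟨n, hn⟩ := (z3 a ha).1.2.2
      exact (eventually_ge_atTop n).mono fun N hN i hi => hn i (hN.trans hi)
  obtain ⟨y, h5, h6⟩ := (Ultrafilter.eventually_exists_mem_iff (f := hyperfilter ℕ)
    (P := fun y N => y.length = L ∧ Q N y) (blk_finite z)).1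
    ((h4.filter_mono Nat.hyperfilter_le_atTop).mono fun N hN =>
      h N z z1 z2 fun a ha => ⟨(z3 a ha).1.1, (z3 a ha).1.2.1, hN a ha⟩)
  have h7 := h6.exists.choose_spec.1
  exact z4 y h5 h7.le h7 (h6.mono fun N hN => hN.2)

theorem stage_three (m s B : ℕ) (hs : 0 < s) : ∃ k, ∀ N, ∃ (x : ℕ → ℕ) (W X D : ℕ),
    B ≤ X ∧ D ≤ X ∧ ∀ u : List (ℕ → ℕ), u.length = k → u.Pairwise Top →
      (∀ a ∈ u, Ok N a) → (u.Pairwise fun a b => W * val N x a < W * val N x b) ∧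
        (∀ a ∈ u, W * val N x a < D) ∧ (Good m X D fun j : Fin u.length => W * val N x u[j]) ∧
          (Good m (2 ^ 40 * X) D fun j : Fin u.length => W * val N x u[j]) ∧
            Good m ((4 * s) ^ 40 * X) D fun j : Fin u.length => W * val N x u[j] := by
  classical
  obtain ⟨k, hk⟩ := thmA m
  refine ⟨k, fun N => ?_⟩
  obtain ⟨W, hW, h⟩ := hk (1 / (4 * 2 ^ (N * k) * (3 ^ N) ^ k)) (by positivity)
  obtain ⟨H0, h⟩ := eventually_atTop.1 h
  obtain ⟨H, hH⟩ : ∃ H, H = H0 + W + 4 * s + B + 3 := ⟨_, rfl⟩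
  have hH0 : 0 < H := by omega
  obtain ⟨H', hH'⟩ : ∃ H', H' = 3 ^ N * H := ⟨_, rfl⟩
  have hHH : H ≤ H' := hH' ▸ Nat.le_mul_of_pos_left _ (by positivity)
  have h1 : (3 : ℝ) ≤ H' := by exact_mod_cast (by omega : 3 ≤ H')
  have l3 : 1 ≤ Real.log 3 := by
    rw [Real.le_log_iff_exp_le (by norm_num)]; exact Real.exp_one_lt_three.le
  have l3' : Real.log 3 ≤ 2 := by linarith [Real.log_le_sub_one_of_pos (show (0 : ℝ) < 3 by norm_num)]
  have hp : (H' : ℝ) ≤ H' ^ 3 := le_self_pow₀ (by linarith) (by norm_num)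
  have b := fun (a : ℕ) (ha : 1 ≤ a) (ha' : a ≤ H') => by
    have a1 : (1 : ℝ) ≤ a := by exact_mod_cast ha
    have a2 : (a : ℝ) ≤ H' := by exact_mod_cast ha'
    have a3 := Real.log_nonneg a1
    have a4 := Real.log_le_sub_one_of_pos (show (0 : ℝ) < a by linarith)
    have e : Real.log (a * 3 ^ H' ^ 3 : ℕ) = Real.log a + H' ^ 3 * Real.log 3 := by
      push_cast
      rw [Real.log_mul (by positivity) (by positivity), Real.log_pow]
      push_cast; rfl
    exact h H' (by omega) (a * 3 ^ H' ^ 3) (by rw [e]; nlinarith) (by rw [e, pow_succ _ 3]; nlinarith)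
  have b1 := b 1 le_rfl (by omega)
  have b2 := b 2 (by omega) (by omega)
  have b3 := b (4 * s) (by omega) (by omega)
  rw [one_mul] at b1
  rw [mul_pow] at b2 b3
  obtain ⟨x, x1, x2⟩ := stage k N hH0 (fun t => Good m ((3 ^ H' ^ 3) ^ 40) (W * H') (fun j => W * t j)
    ∧ Good m (2 ^ 40 * (3 ^ H' ^ 3) ^ 40) (W * H') (fun j => W * t j)
    ∧ Good m ((4 * s) ^ 40 * (3 ^ H' ^ 3) ^ 40) (W * H') fun j => W * t j) (by
      rw [← hH']
      simp only [not_and_or, filter_or]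
      refine (Nat.mul_le_mul_left _ ((card_union_le _ _).trans
        (Nat.add_le_add_left (card_union_le _ _) _))).trans_lt (Nat.cast_lt (α := ℝ).1 ?_)
      rw [Nat.cast_mul, Nat.cast_add, Nat.cast_add]
      refine (mul_le_mul_of_nonneg_left (add_le_add b1 (add_le_add b2 b3))
        (by positivity)).trans_lt ?_
      rw [hH']
      push_cast
      rw [mul_pow]
      field_simp
      norm_num)
  have h2 : H' ^ 2 ≤ (3 ^ H' ^ 3) ^ 40 := by
    calc H' ^ 2 ≤ H' ^ 3 := Nat.pow_le_pow_right (by omega) (by norm_num)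
      _ ≤ 3 ^ H' ^ 3 := (Nat.lt_pow_self (by norm_num)).le
      _ ≤ _ := Nat.le_self_pow (by norm_num) _
  refine ⟨x, W, (3 ^ H' ^ 3) ^ 40, W * H', le_trans ?_ h2, le_trans ?_ h2, fun u u1 u2 u3 =>
    ⟨List.Pairwise.imp_of_mem (fun ha hb h => Nat.mul_lt_mul_of_pos_left
      (val_top hH0 x1 (u3 _ ha) (u3 _ hb) h) hW) u2, fun a ha => Nat.mul_lt_mul_of_pos_left
      (hH' ▸ val_lt hH0 (fun i => (x1 i).2) (u3 a ha).2.1 (u3 a ha).2.2) hW, ?_⟩⟩
  · exact le_trans (by omega) (Nat.le_self_pow (by norm_num) H')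
  · rw [sq]; exact Nat.mul_le_mul_right _ (by omega)
  · subst u1
    exact x2 (fun j => u[j]) (fun j => u3 _ (List.getElem_mem _))
      fun j j' h => List.pairwise_iff_getElem.1 u2 j j' j.2 j'.2 h

theorem gaps_of_good {m X D l : ℕ} {g : (ℕ → ℕ) → ℕ} (hg : ∀ a b, g (a + b) = g a + g b)
    {z : List (ℕ → ℕ)} (h1 : (rs 0 z).Pairwise fun a b => g a < g b) (h2 : ∀ a ∈ rs 0 z, g a < D)
    (h : Good m X D fun j : Fin (rs 0 z).length => g (rs 0 z)[j]) (hm : l + 1 ≤ m) :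
    l ≤ z.length ∧ ∃ y ∈ blk z, y.length = l ∧ ∃ i, Gp g i y ∧ X ≤ Nat.nth Nat.Prime i + D ∧
      Nat.nth Nat.Prime i ≤ 16 * X + D := by
  obtain ⟨n, i, s, s1, s2, s3, s4⟩ := good_chain h1 h2 h hm (by omega)
  have s5 := s1.length_le
  rw [length_rs, s2] at s5
  obtain ⟨y, y1, rfl⟩ := blk_rs add_assoc s1
  rw [length_rs] at s2
  cases y with
  | nil => exact absurd s2 (Nat.succ_ne_zero _).symm
  | cons a y => exact ⟨by omega, y, blk_tail y1, Nat.succ_injective s2, i, Gp_rs hg s3.1 s3.2, s4⟩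

theorem runs_three (L s B : ℕ) (hs : 0 < s) : ∃ X i i' i'', B ≤ X ∧
    Nat.nth Nat.Prime i ≤ 32 * X ∧ 2 ^ 34 * (32 * X) ≤ Nat.nth Nat.Prime i' ∧
    Nat.nth Nat.Prime i' ≤ 2 ^ 45 * X ∧ 2 ^ 34 * s ^ 40 * (2 ^ 45 * X) ≤ Nat.nth Nat.Prime i'' ∧
    Nat.nth Nat.Prime i'' ≤ 2 ^ 80 * s ^ 40 * (32 * X) ∧ ∀ j ≤ L,
    Nat.nth Nat.Prime (i + j) + Nat.nth Nat.Prime (i' + j) + Nat.nth Nat.Prime i''
      = Nat.nth Nat.Prime i + Nat.nth Nat.Prime i' + Nat.nth Nat.Prime (i'' + j) := by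
  obtain ⟨k, hk⟩ := stage_three (L + 1) s B hs
  choose x W X D h0 h1 h2 using hk
  have hg : ∀ N (a b : ℕ → ℕ), W N * val N (x N) (a + b)
      = W N * val N (x N) a + W N * val N (x N) b := fun N a b => by rw [val_add, mul_add]
  have split : ∀ z : List (ℕ → ℕ), z.length = 2 * k → ∃ p : List ((ℕ → ℕ) × (ℕ → ℕ)),
      p.length = k ∧ z = p.map Prod.fst ++ p.map Prod.snd := fun z z1 => by
    have e1 : (z.take k).length = k := by rw [List.length_take]; omega
    have e2 : (z.drop k).length = k := by rw [List.length_drop]; omega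
    refine ⟨(z.take k).zip (z.drop k), by rw [List.length_zip]; omega, ?_⟩
    rw [List.map_fst_zip (by omega), List.map_snd_zip (by omega), List.take_append_drop]
  obtain ⟨U, u1, u2⟩ := exists_ultra
  have k1 := one_colouring u1 u2 (2 * L) (2 * k) (fun N y => ∃ i,
      Gp (fun a => W N * val N (x N) a) i (y.take L) ∧ Nat.nth Nat.Prime i ≤ 16 * X N + D N) (by
    intro N z z1 z2 z4
    obtain ⟨p, p1, rfl⟩ := split z z1
    obtain ⟨r1, r2⟩ := rs_top (b := 0) (List.pairwise_append.1 z2).1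
      (fun a ha => z4 a (List.mem_append_left _ ha)) (fun a _ i i' h => absurd rfl h)
      (fun _ => Nat.zero_le _) (fun _ _ => rfl)
    obtain ⟨g1, g2, g3, -⟩ := h2 N (rs 0 (p.map Prod.fst))
      (by rw [length_rs, List.length_map, p1]) r1 fun a ha => (r2 a ha).1
    obtain ⟨t0, y, t1, t2, i, t3, -, t4⟩ := gaps_of_good (hg N) g1 g2 g3 le_rfl
    rw [List.length_map] at t0
    refine ⟨y ++ (p.map Prod.snd).take L, blk_append t1 (blk_sublist (List.take_sublist _ _)),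
      by rw [List.length_append, List.length_take, List.length_map]; omega, i, ?_, t4⟩
    rwa [List.take_left' t2])
  have k2 := one_colouring u1 u2 (2 * L) (2 * k) (fun N y => ∃ i,
      Gp (fun a => W N * val N (x N) a) i (y.drop L) ∧ 2 ^ 40 * X N ≤ Nat.nth Nat.Prime i + D N ∧
        Nat.nth Nat.Prime i ≤ 16 * (2 ^ 40 * X N) + D N) (by
    intro N z z1 z2 z4
    obtain ⟨p, p1, rfl⟩ := split z z1
    obtain ⟨r1, r2⟩ := rs_top (b := 0) (List.pairwise_append.1 z2).2.1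
      (fun a ha => z4 a (List.mem_append_right _ ha)) (fun a _ i i' h => absurd rfl h)
      (fun _ => Nat.zero_le _) (fun _ _ => rfl)
    obtain ⟨g1, g2, -, g3, -⟩ := h2 N (rs 0 (p.map Prod.snd))
      (by rw [length_rs, List.length_map, p1]) r1 fun a ha => (r2 a ha).1
    obtain ⟨t0, y, t1, t2, i, t3, t4⟩ := gaps_of_good (hg N) g1 g2 g3 le_rfl
    rw [List.length_map] at t0
    have t5 : ((p.map Prod.fst).take L).length = L := by
      rw [List.length_take, List.length_map]; omega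
    refine ⟨(p.map Prod.fst).take L ++ y, blk_append (blk_sublist (List.take_sublist _ _)) t1,
      by rw [List.length_append]; omega, i, ?_, t4⟩
    rwa [List.drop_left' t5])
  have k3 := one_colouring u1 u2 (2 * L) (2 * k) (fun N y =>
      ∃ p : List ((ℕ → ℕ) × (ℕ → ℕ)), y = p.map Prod.fst ++ p.map Prod.snd ∧
        ∃ i, Gp (fun a => W N * val N (x N) a) i (p.map fun a => a.1 + a.2) ∧
          (4 * s) ^ 40 * X N ≤ Nat.nth Nat.Prime i + D N ∧
            Nat.nth Nat.Prime i ≤ 16 * ((4 * s) ^ 40 * X N) + D N) (by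
    intro N z z1 z2 z4
    obtain ⟨p, p1, rfl⟩ := split z z1
    obtain ⟨t1, t2⟩ := two_level z2 z4
    obtain ⟨r1, r2⟩ := rs_rel (b := 0) t1 t2 (fun a ha => by
      obtain ⟨i, hi⟩ := Function.ne_iff.1 (t2 a ha).1
      exact ⟨fun _ => Or.inl rfl, i, hi, fun _ _ => rfl⟩) (fun _ => Nat.zero_le _) (fun _ _ => rfl)
    obtain ⟨g1, g2, -, -, g3⟩ := h2 N (rs 0 (p.map fun a => a.1 + a.2))
      (by rw [length_rs, List.length_map, p1]) r1 fun a ha => (r2 a ha).1
    obtain ⟨-, y, t1, t2, i, t3, t4⟩ := gaps_of_good (hg N) g1 g2 g3 le_rfl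
    obtain ⟨q, q1, rfl⟩ := blk_of_map (f := fun a : (ℕ → ℕ) × (ℕ → ℕ) => a.1 + a.2)
      (fun a b => add_add_add_comm _ _ _ _) t1
    rw [List.length_map] at t2
    exact ⟨q.map Prod.fst ++ q.map Prod.snd,
      blk_append (blk_map (fun _ _ => rfl) q1) (blk_map (fun _ _ => rfl) q1),
      by rw [List.length_append, List.length_map, List.length_map]; omega, q, rfl, i, t3, t4⟩)
  obtain ⟨y, y1, y2⟩ := Tr_exists (Tr_two (fun l hl h h' => And.intro hl (Eventually.and h h')) k1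
    (Tr_two (fun l _ h h' => Eventually.and h h') k2 k3))
  obtain ⟨N, ⟨i, c1, c2⟩, ⟨i', c3, c4, c5⟩, p, rfl, i'', c6, c7, c8⟩ := y2.exists
  have p1 : p.length = L := by
    rw [List.length_append, List.length_map, List.length_map] at y1
    omega
  rw [List.take_left' (by rw [List.length_map, p1])] at c1
  rw [List.drop_left' (by rw [List.length_map, p1])] at c3
  have d1 := h1 N
  have e : (4 * s) ^ 40 * X N = 2 ^ 80 * (s ^ 40 * X N) := by ring
  have d2 : X N ≤ s ^ 40 * X N := Nat.le_mul_of_pos_left _ (by positivity)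
  rw [e] at c7 c8
  refine ⟨X N, i, i', i'', h0 N, by omega, by omega, by omega, ?_, ?_,
    p1 ▸ three (hg N) c1 c3 c6⟩
  · rw [show 2 ^ 34 * s ^ 40 * (2 ^ 45 * X N) = 2 ^ 79 * (s ^ 40 * X N) by ring]
    omega
  · rw [show 2 ^ 80 * s ^ 40 * (32 * X N) = 2 ^ 85 * (s ^ 40 * X N) by ring]
    omega

end Pool.Agent.FS.BoundedRatio
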